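import Pool.Agent.MP_6a4325_al.H62.Base2

/-!
The theorem of Bergman on characters of a plinth.
-/

set_option autoImplicit false

namespace Pool.Agent.MP_6a4325_al.H62

namespace Berg

section Val

theorem exists_val (p : ℕ) [Fact p.Prime] (E : Type) [Field E] [CharP E p] {t : E} (h0 : t ≠ 0)
    (ht : ¬ IsOfFinOrder t) : ∃ V : ValuationSubring E, V.valuation t ≠ 1 := by
  by_contra hc
  have hc' : ∀ V : ValuationSubring E, t ∈ V := fun V => by
    by_contra hV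
    exact hc ⟨V, fun e => hV ((V.valuation_le_one_iff t).1 e.le)⟩
  have h1 : t ∈ (integralClosure (Subring.closure (∅ : Set E)) E).toSubring := by
    rw [← iInf_valuationSubring_superset, Subring.mem_iInf]
    exact fun V => hc' V.1
  have h2 : IsIntegral (Subring.closure (∅ : Set E)) t := h1
  have hfin : Finite (Subring.closure (∅ : Set E)) := by
    have hp : (p : ℕ) ≠ 0 := (Fact.out : p.Prime).ne_zero
    haveI : NeZero p := ⟨hp⟩
    have hle : Subring.closure (∅ : Set E) ≤ (ZMod.castHom (dvd_refl p) E).range :=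
      Subring.closure_le.2 (Set.empty_subset _)
    have : Finite (ZMod.castHom (dvd_refl p) E).range :=
      Finite.of_surjective _ (ZMod.castHom (dvd_refl p) E).rangeRestrict_surjective
    exact Finite.of_injective _ (Subring.inclusion_injective hle)
  have h3 : Module.Finite (Subring.closure (∅ : Set E))
      (Algebra.adjoin (Subring.closure (∅ : Set E)) {t}) :=
    ⟨(Submodule.fg_top _).2 h2.fg_adjoin_singleton⟩
  have h4 : Finite (Algebra.adjoin (Subring.closure (∅ : Set E)) {t}) :=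
    Module.finite_of_finite (Subring.closure (∅ : Set E))
  let f : ℕ → Algebra.adjoin (Subring.closure (∅ : Set E)) {t} := fun n =>
    ⟨t ^ n, Subalgebra.pow_mem _ (Algebra.self_mem_adjoin_singleton _ t) n⟩
  obtain ⟨i, j, hij, e⟩ := Finite.exists_ne_map_eq_of_infinite f
  have e' : t ^ i = t ^ j := congrArg Subtype.val e
  apply ht
  rcases lt_or_gt_of_ne hij with h | h
  · refine isOfFinOrder_iff_pow_eq_one.2 ⟨j - i, by omega, ?_⟩
    apply mul_left_cancel₀ (pow_ne_zero i h0)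
    rw [← pow_add, mul_one, e']
    congr 1
    omega
  · refine isOfFinOrder_iff_pow_eq_one.2 ⟨i - j, by omega, ?_⟩
    apply mul_left_cancel₀ (pow_ne_zero j h0)
    rw [← pow_add, mul_one, ← e']
    congr 1
    omega

theorem val_pow {E : Type} [Field E] (V : ValuationSubring E) {x : E} {n : ℕ} (hn : 0 < n)
    (h : V.valuation (x ^ n) = 1) : V.valuation x = 1 := by
  rw [map_pow] at h
  exact (pow_eq_one_iff_of_nonneg zero_le hn.ne').1 h

end Val

section Comb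

variable {G : Type} [Group G]

/-- the conjugate `g⁻¹ C g` -/
def cj (g : G) (C : Subgroup G) : Subgroup G := C.comap (MulAut.conj g).toMonoidHom

theorem mem_cj {g a : G} {C : Subgroup G} : a ∈ cj g C ↔ g * a * g⁻¹ ∈ C := Iff.rfl

theorem cj_cj (g h : G) (C : Subgroup G) : cj g (cj h C) = cj (h * g) C := by
  ext a
  rw [mem_cj, mem_cj, mem_cj]
  have : h * (g * a * g⁻¹) * h⁻¹ = h * g * a * (h * g)⁻¹ := by group
  rw [this]

theorem cj_one (C : Subgroup G) : cj 1 C = C := by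
  ext a
  rw [mem_cj]
  simp

theorem cj_mono (g : G) {C D : Subgroup G} (h : C ≤ D) : cj g C ≤ cj g D := fun _ ha => h ha

theorem cj_inv (g : G) (C : Subgroup G) : cj g⁻¹ (cj g C) = C := by
  rw [cj_cj, mul_inv_cancel, cj_one]

theorem cj_inj (g : G) {C D : Subgroup G} (h : cj g C = cj g D) : C = D := by
  rw [← cj_inv g C, h, cj_inv]

theorem cj_lt (g : G) {C D : Subgroup G} (h : C < D) : cj g C < cj g D :=
  lt_of_le_of_ne (cj_mono g h.le) fun e => h.ne (cj_inj g e)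

theorem cj_le {A : Subgroup G} (hA : A.Normal) (g : G) {C : Subgroup G} (h : C ≤ A) :
    cj g C ≤ A := fun a ha => by
  have := hA.conj_mem _ (h ha) g⁻¹
  have e : g⁻¹ * ((MulAut.conj g).toMonoidHom a) * g⁻¹⁻¹ = a := by
    show g⁻¹ * (g * a * g⁻¹) * g⁻¹⁻¹ = a
    group
  rwa [e] at this

theorem wf {A : Subgroup G} (hfg : A.FG) (hc : Cm A A) :
    WellFounded fun D C : Subgroup G => C < D ∧ D ≤ A := by
  letI : CommGroup A := { (inferInstance : Group A) with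
    mul_comm := fun a b => Subtype.ext (hc a a.2 b b.2) }
  haveI : Group.FG A := (Group.fg_iff_subgroup_fg A).2 hfg
  haveI : Module.Finite ℤ (Additive A) := Module.Finite.iff_addGroup_fg.2 inferInstance
  have h1 : WellFounded ((· > ·) : Submodule ℤ (Additive A) → Submodule ℤ (Additive A) → Prop) :=
    wellFounded_gt
  let f : Subgroup G → Submodule ℤ (Additive A) := fun C =>
    AddSubgroup.toIntSubmodule (Subgroup.toAddSubgroup (C.subgroupOf A))
  refine Subrelation.wf (r := InvImage (· > ·) f) ?_ (InvImage.wf f h1)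
  intro D C h
  show f C < f D
  refine AddSubgroup.toIntSubmodule.strictMono (Subgroup.toAddSubgroup.strictMono ?_)
  refine lt_of_le_of_ne (fun a ha => h.1.le ha) fun e => h.1.not_ge fun a ha => ?_
  have : (⟨a, h.2 ha⟩ : A) ∈ C.subgroupOf A := by
    rw [e]
    exact ha
  exact this

theorem eq_cj {A : Subgroup G} (hA : A.Normal) (hfg : A.FG) (hc : Cm A A) (u : G)
    (C : Subgroup G) : C ≤ A → C ≤ cj u C → C = cj u C := by
  induction C using (wf hfg hc).induction with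
  | _ C ih =>
    intro h1 h2
    by_contra hne
    exact hne (cj_inj u (ih (cj u C) ⟨lt_of_le_of_ne h2 hne, cj_le hA u h1⟩ (cj_le hA u h1)
      (cj_mono u h2)))

variable (A K H : Subgroup G)

/-- a family of subgroups covers `C` -/
def Cov (I : Set (Subgroup G)) (C : Subgroup G) : Prop :=
  ∀ g ∈ K, C ≤ cj g H → ∃ D ∈ I, D ≤ cj g H

/-- irreducible subgroups -/
def Ir (C : Subgroup G) : Prop :=
  C ≤ A ∧ (∃ g ∈ K, C ≤ cj g H) ∧
    ¬ ∃ I : Set (Subgroup G), I.Finite ∧ (∀ D ∈ I, C < D ∧ D ≤ A) ∧ Cov K H I C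

variable {A K H}

theorem cover (hfg : A.FG) (hc : Cm A A) (C : Subgroup G) : C ≤ A →
    ∃ I : Set (Subgroup G), I.Finite ∧ (∀ D ∈ I, Ir A K H D ∧ C ≤ D) ∧ Cov K H I C := by
  induction C using (wf hfg hc).induction with
  | _ C ih =>
    intro h1
    by_cases h2 : ∃ g ∈ K, C ≤ cj g H
    · by_cases h3 : ∃ I : Set (Subgroup G), I.Finite ∧ (∀ D ∈ I, C < D ∧ D ≤ A) ∧ Cov K H I C
      · obtain ⟨J, j1, j2, j3⟩ := h3
        choose! I i1 i2 i3 using fun D (hD : D ∈ J) => ih D (j2 D hD) (j2 D hD).2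
        refine ⟨⋃ D ∈ J, I D, j1.biUnion i1, fun X hX => ?_, fun g hg hC => ?_⟩
        · obtain ⟨D, hD, hX⟩ := Set.mem_iUnion₂.1 hX
          exact ⟨(i2 D hD X hX).1, (j2 D hD).1.le.trans (i2 D hD X hX).2⟩
        · obtain ⟨D, hD, d1⟩ := j3 g hg hC
          obtain ⟨X, hX, x1⟩ := i3 D hD g hg d1
          exact ⟨X, Set.mem_iUnion₂.2 ⟨D, hD, hX⟩, x1⟩
      · refine ⟨{C}, Set.finite_singleton C, fun D hD => ?_, fun g _ hC => ⟨C, rfl, hC⟩⟩
        rw [Set.mem_singleton_iff.1 hD]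
        exact ⟨⟨h1, h2, h3⟩, le_rfl⟩
    · exact ⟨∅, Set.finite_empty, fun D hD => hD.elim, fun g hg hC => (h2 ⟨g, hg, hC⟩).elim⟩

theorem Ir.conj (hA : A.Normal) {C : Subgroup G} (h : Ir A K H C) {u : G} (hu : u ∈ K) :
    Ir A K H (cj u C) := by
  obtain ⟨h1, ⟨g, hg, h2⟩, h3⟩ := h
  refine ⟨cj_le hA u h1, ⟨g * u, K.mul_mem hg hu, ?_⟩, ?_⟩
  · rw [← cj_cj]
    exact cj_mono u h2
  · rintro ⟨J, j1, j2, j3⟩
    refine h3 ⟨cj u⁻¹ '' J, j1.image _, ?_, fun x hx hC => ?_⟩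
    · rintro _ ⟨D, hD, rfl⟩
      refine ⟨?_, cj_le hA _ (j2 D hD).2⟩
      have := cj_lt u⁻¹ (j2 D hD).1
      rwa [cj_inv] at this
    · obtain ⟨D, hD, d1⟩ := j3 (x * u) (K.mul_mem hx hu) (by
        rw [← cj_cj]
        exact cj_mono u hC)
      refine ⟨_, ⟨D, hD, rfl⟩, ?_⟩
      have := cj_mono u⁻¹ d1
      rwa [← cj_cj, cj_inv] at this

theorem Ir.contains {C : Subgroup G} (h : Ir A K H C) {I : Set (Subgroup G)} (i1 : I.Finite)
    (i2 : ∀ D ∈ I, D ≤ A) (i3 : ∀ g ∈ K, ∃ D ∈ I, D ≤ cj g H) : ∃ D ∈ I, D ≤ C := by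
  by_contra hc
  refine h.2.2 ⟨(fun D => C ⊔ D) '' I, i1.image _, ?_, fun g hg hC => ?_⟩
  · rintro _ ⟨D, hD, rfl⟩
    refine ⟨lt_of_le_of_ne le_sup_left fun e => hc ⟨D, hD, ?_⟩, sup_le h.1 (i2 D hD)⟩
    exact le_sup_right.trans e.ge
  · obtain ⟨D, hD, d1⟩ := i3 g hg
    exact ⟨_, ⟨D, hD, rfl⟩, sup_le hC d1⟩

theorem stab (hK : K.FiniteIndex) {C : Subgroup G} {I : Set (Subgroup G)} (i1 : I.Finite)
    (h : ∀ g ∈ K, cj g C ∈ I) : ∃ N : Subgroup G, N.FiniteIndex ∧ Nz C N := by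
  letI : MulAction K (Subgroup G) :=
    { smul := fun g D => cj (g : G)⁻¹ D
      one_smul := fun D => by
        show cj ((1 : K) : G)⁻¹ D = D
        simp [cj_one]
      mul_smul := fun g u D => by
        show cj ((g * u : K) : G)⁻¹ D = cj (g : G)⁻¹ (cj (u : G)⁻¹ D)
        rw [cj_cj]
        simp }
  have hfin : (MulAction.orbit K C).Finite := i1.subset (by
    rintro _ ⟨g, rfl⟩
    exact h _ (K.inv_mem g.2))
  have h1 : (MulAction.stabilizer K C).index ≠ 0 := by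
    rw [MulAction.index_stabilizer]
    exact Set.ncard_ne_zero_of_mem (MulAction.mem_orbit_self C) hfin
  refine ⟨(MulAction.stabilizer K C).map K.subtype, ⟨?_⟩, ?_⟩
  · rw [Subgroup.index_map_subtype]
    exact mul_ne_zero h1 hK.index_ne_zero
  · rintro _ ⟨g, hg, rfl⟩ a ha
    have e : cj (g : G)⁻¹ C = C := hg
    rw [← e, mem_cj]
    have : (g : G)⁻¹ * (K.subtype g * a * (K.subtype g)⁻¹) * (g : G)⁻¹⁻¹ = a := by
      show (g : G)⁻¹ * ((g : G) * a * (g : G)⁻¹) * (g : G)⁻¹⁻¹ = a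
      group
    rwa [this]

theorem main (hA : A.Normal) (hfg : A.FG) (hc : Cm A A) (hK : K.FiniteIndex) {S : Set G}
    (s1 : S.Finite) (s2 : ∀ a ∈ S, a ∈ A ∧ a ≠ 1) (s3 : ∀ g ∈ K, ∃ a ∈ S, g * a * g⁻¹ ∈ H) :
    ∃ C N : Subgroup G, C ≤ A ∧ C ≠ ⊥ ∧ (∃ g, C ≤ cj g H) ∧ N.FiniteIndex ∧ Nz C N := by
  classical
  choose! J j1 j2 j3 using fun a (ha : a ∈ S) =>
    cover (K := K) (H := H) hfg hc (Subgroup.zpowers a) (Subgroup.zpowers_le.2 (s2 a ha).1)
  have i1 : (⋃ a ∈ S, J a).Finite := s1.biUnion j1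
  have i2 : ∀ D ∈ ⋃ a ∈ S, J a, Ir A K H D ∧ D ≠ ⊥ := fun D hD => by
    obtain ⟨a, ha, hD⟩ := Set.mem_iUnion₂.1 hD
    refine ⟨(j2 a ha D hD).1, fun e => (s2 a ha).2 ?_⟩
    have := (j2 a ha D hD).2 (Subgroup.mem_zpowers a)
    rwa [e, Subgroup.mem_bot] at this
  have i3 : ∀ g ∈ K, ∃ D ∈ ⋃ a ∈ S, J a, D ≤ cj g H := fun g hg => by
    obtain ⟨a, ha, h1⟩ := s3 g hg
    obtain ⟨D, hD, d1⟩ := j3 a ha g hg (Subgroup.zpowers_le.2 h1)
    exact ⟨D, Set.mem_iUnion₂.2 ⟨a, ha, hD⟩, d1⟩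
  generalize (⋃ a ∈ S, J a) = I at i1 i2 i3
  have hne : i1.toFinset.Nonempty := by
    obtain ⟨D, hD, -⟩ := i3 1 K.one_mem
    exact ⟨D, i1.mem_toFinset.2 hD⟩
  obtain ⟨C, hC, hmin⟩ := Finset.exists_min_image i1.toFinset
    (fun X => (i1.toFinset.filter fun D => ∃ g ∈ K, D ≤ cj g X).card) hne
  have hC' := i1.mem_toFinset.1 hC
  have key : ∀ D ∈ I, (∃ g ∈ K, D ≤ cj g C) → ∃ g ∈ K, C ≤ cj g D := by
    rintro D hD ⟨g, hg, d1⟩
    have hsub : (i1.toFinset.filter fun X => ∃ g ∈ K, X ≤ cj g D) ⊆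
        i1.toFinset.filter fun X => ∃ g ∈ K, X ≤ cj g C := by
      intro X hX
      obtain ⟨x1, u, hu, x2⟩ := Finset.mem_filter.1 hX
      refine Finset.mem_filter.2 ⟨x1, g * u, K.mul_mem hg hu, ?_⟩
      rw [← cj_cj]
      exact x2.trans (cj_mono u d1)
    have e := Finset.eq_of_subset_of_card_le hsub (hmin D (i1.mem_toFinset.2 hD))
    have : C ∈ i1.toFinset.filter fun X => ∃ g ∈ K, X ≤ cj g C :=
      Finset.mem_filter.2 ⟨hC, 1, K.one_mem, (cj_one C).ge⟩
    rw [← e] at this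
    exact (Finset.mem_filter.1 this).2
  have horb : ∀ g ∈ K, cj g C ∈ I := fun g hg => by
    obtain ⟨D, hD, d1⟩ := ((i2 C hC').1.conj hA hg).contains i1 (fun D hD => (i2 D hD).1.1) i3
    obtain ⟨u, _, d2⟩ := key D hD ⟨g, hg, d1⟩
    have d3 : cj u D ≤ cj (g * u) C := by
      rw [← cj_cj]
      exact cj_mono u d1
    have e := eq_cj hA hfg hc (g * u) C (i2 C hC').1.1 (d2.trans d3)
    have e2 : cj u D = cj u (cj g C) := by
      rw [cj_cj]
      exact le_antisymm d3 (e.ge.trans d2)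
    rw [← cj_inj u e2]
    exact hD
  obtain ⟨N, n1, n2⟩ := stab hK i1 horb
  obtain ⟨g, -, hg⟩ := (i2 C hC').1.2.1
  exact ⟨C, N, (i2 C hC').1.1, (i2 C hC').2, ⟨g, hg⟩, n1, n2⟩

end Comb

section Ch

variable {G E : Type} [Group G] [Field E] {A : Subgroup G} {φ : G → E}

theorem ch_pow (h : IsCh A φ) {a : G} (ha : a ∈ A) (n : ℕ) : φ (a ^ n) = φ a ^ n := by
  induction n with
  | zero => simpa using h.1
  | succ n ih => rw [pow_succ, h.2 _ (A.pow_mem ha n) _ ha, ih, pow_succ]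

/-- the elements whose character value is a unit of the valuation ring -/
def ker (h : IsCh A φ) (V : ValuationSubring E) : Subgroup G where
  carrier := {a | a ∈ A ∧ V.valuation (φ a) = 1}
  one_mem' := ⟨A.one_mem, by rw [h.1, map_one]⟩
  mul_mem' := fun {a b} ha hb =>
    ⟨A.mul_mem ha.1 hb.1, by rw [h.2 a ha.1 b hb.1, map_mul, ha.2, hb.2, mul_one]⟩
  inv_mem' := fun {a} ha => ⟨A.inv_mem ha.1, by
    have := congrArg V.valuation (h.2 a⁻¹ (A.inv_mem ha.1) a ha.1)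
    rw [inv_mul_cancel, h.1, map_one, map_mul, ha.2, mul_one] at this
    exact this.symm⟩

theorem two {k : Type} [Field k] [Algebra k E] (hk : Absolute k) (hA : A.Normal) (h : IsCh A φ)
    (V : ValuationSubring E) {x : MonoidAlgebra k G} (h0 : x ≠ 0) (hx : Supp A x) {g : G}
    (hg : evc φ g x = 0) : ∃ a ∈ x.coeff.support, ∃ b ∈ x.coeff.support, a ≠ b ∧
      V.valuation (φ (g * a * g⁻¹)) = V.valuation (φ (g * b * g⁻¹)) := by
  classical
  by_contra hc
  have hne : x.coeff.support.Nonempty := by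
    rw [Finsupp.support_nonempty_iff]
    intro e
    apply h0
    ext a
    simp [e]
  have hv : ∀ a ∈ x.coeff.support,
      V.valuation (x.coeff a • φ (g * a * g⁻¹)) = V.valuation (φ (g * a * g⁻¹)) := by
    intro a ha
    obtain ⟨n, hn, e⟩ := isOfFinOrder_iff_pow_eq_one.1 (hk _ (Finsupp.mem_support_iff.1 ha))
    have : V.valuation (algebraMap k E (x.coeff a)) = 1 :=
      val_pow V hn (by rw [← map_pow, e, map_one, map_one])
    rw [Algebra.smul_def, map_mul, this, one_mul]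
  obtain ⟨a, ha, hmax⟩ := Finset.exists_max_image x.coeff.support
    (fun a => V.valuation (φ (g * a * g⁻¹))) hne
  have e := V.valuation.map_sum_eq_of_lt (f := fun a => x.coeff a • φ (g * a * g⁻¹)) ha (by
    intro b hb
    obtain ⟨b1, b2⟩ := Finset.mem_sdiff.1 hb
    rw [hv a ha, hv b b1]
    exact lt_of_le_of_ne (hmax b b1) fun e =>
      hc ⟨b, b1, a, ha, fun e' => b2 (Finset.mem_singleton.2 e'), e⟩)
  have e0 : ∑ a ∈ x.coeff.support, x.coeff a • φ (g * a * g⁻¹) = 0 := hg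
  rw [e0, hv a ha, map_zero] at e
  exact h.ne_zero (hA.conj_mem a (hx a ha) g) ((Valuation.zero_iff _).1 e.symm)

end Ch

end Berg

open Berg in
theorem berg : SBerg := by
  intro p _ k E G _ _ _ _ _ hk A hP K hK φ h x h0 hx hz a0 ha0
  classical
  obtain ⟨hA, -, hfg, hc, -, hP⟩ := hP
  by_contra ht
  haveI : CharP E p := charP_of_injective_algebraMap (algebraMap k E).injective p
  obtain ⟨V, hV⟩ := exists_val p E (h.ne_zero ha0) ht
  obtain ⟨C, N, c1, c2, ⟨g, c3⟩, n1, n2⟩ := main (H := ker h V) hA hfg hc hK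
    (S := {c | ∃ a ∈ x.coeff.support, ∃ b ∈ x.coeff.support, a ≠ b ∧ c = a * b⁻¹})
    (((x.coeff.support ×ˢ x.coeff.support).image fun q => q.1 * q.2⁻¹).finite_toSet.subset (by
      rintro _ ⟨a, ha, b, hb, -, rfl⟩
      exact Finset.mem_coe.2 (Finset.mem_image.2 ⟨(a, b), Finset.mem_product.2 ⟨ha, hb⟩, rfl⟩)))
    (by
      rintro _ ⟨a, ha, b, hb, hab, rfl⟩
      exact ⟨A.mul_mem (hx a ha) (A.inv_mem (hx b hb)), fun e => hab (mul_inv_eq_one.1 e)⟩)
    (fun g hg => by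
      obtain ⟨a, ha, b, hb, hab, e⟩ := two hk hA h V h0 hx (hz g hg)
      have m1 : g * (a * b⁻¹) * g⁻¹ ∈ A :=
        hA.conj_mem _ (A.mul_mem (hx a ha) (A.inv_mem (hx b hb))) g
      have m2 : g * b * g⁻¹ ∈ A := hA.conj_mem _ (hx b hb) g
      refine ⟨a * b⁻¹, ⟨a, ha, b, hb, hab, rfl⟩, m1, ?_⟩
      have e1 : g * a * g⁻¹ = g * (a * b⁻¹) * g⁻¹ * (g * b * g⁻¹) := by group
      rw [e1, h.2 _ m1 _ m2, map_mul] at e
      exact mul_right_cancel₀ ((Valuation.ne_zero_iff _).2 (h.ne_zero m2))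
        (e.trans (one_mul _).symm))
  rcases hP N n1 C c1 n2 with e | e
  · exact c2 e
  · have m1 : g⁻¹ * a0 * g⁻¹⁻¹ ∈ A := hA.conj_mem _ ha0 g⁻¹
    obtain ⟨n, hn, -, m2⟩ := Subgroup.exists_pow_mem_of_relIndex_ne_zero e m1
    have m3 := (mem_cj.1 (c3 m2.1)).2
    have e1 : g * (g⁻¹ * a0 * g⁻¹⁻¹) ^ n * g⁻¹ = a0 ^ n := by
      rw [conj_pow]
      group
    rw [e1, ch_pow h ha0] at m3
    exact hV (val_pow V hn m3)

end Pool.Agent.MP_6a4325_al.H62
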