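import Pool.Agent.MP_6a4325_al.H84.Spec3

/-! The centraliser of a torsion free abelian normal subgroup. -/

set_option autoImplicit false

namespace Pool.Agent.MP_6a4325_al.H41

open Pool.Agent.MP_6a4325_al.H62 Pool.Agent.MP_6a4325_al.H84

namespace Cen

theorem indep {k T A I : Type} [Field k] [AddCommGroup T] [Module k T] (σ : A → T →ₗ[k] T)
    (v : I → T) (w : I → A → k) (h0 : ∀ i, v i ≠ 0) (hw : ∀ i a, σ a (v i) = w i a • v i)
    (hd : ∀ i j, i ≠ j → ∃ a, w i a ≠ w j a) : LinearIndependent k v := by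
  classical
  rw [linearIndependent_iff']
  intro s
  induction s using Finset.induction_on with
  | empty => simp
  | insert j s hj ih =>
    intro c hc
    rw [Finset.sum_insert hj] at hc
    have h1 : ∀ i ∈ s, c i = 0 := fun i hi => by
      obtain ⟨a, ha⟩ := hd i j fun e => hj (e ▸ hi)
      have e := congrArg (fun t => σ a t - w j a • t) hc
      simp only [map_add, map_sum, map_smul, hw, map_zero, smul_zero, sub_zero, smul_add,
        Finset.smul_sum] at e
      have := ih (fun l => c l * (w l a - w j a)) (by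
        rw [← e, smul_comm (c j), add_sub_add_left_eq_sub, ← Finset.sum_sub_distrib]
        exact Finset.sum_congr rfl fun l _ => by module) i hi
      exact (mul_eq_zero.1 this).resolve_right (sub_ne_zero.2 ha)
    rw [Finset.sum_eq_zero fun i hi => by rw [h1 i hi, zero_smul], add_zero] at hc
    exact Finset.forall_mem_insert _ _ _ |>.2 ⟨(smul_eq_zero.1 hc).resolve_right (h0 j), h1⟩

theorem emb {Q : Type} [Nonempty Q] {D : ℕ} (h : ¬ (Nat.card Q ≠ 0 ∧ Nat.card Q ≤ D)) :
    Nonempty (Fin (D + 1) ↪ Q) := by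
  rcases finite_or_infinite Q with _ | _
  · have := Fintype.ofFinite Q
    have a : 0 < Nat.card Q := Nat.card_pos
    refine Function.Embedding.nonempty_of_card_le ?_
    rw [Fintype.card_fin, ← Nat.card_eq_fintype_card]
    omega
  · exact ⟨Fin.valEmbedding.trans (Infinite.natEmbedding Q)⟩

theorem ne0 {k L T : Type} [Field k] [Group L] [AddCommGroup T] [Module k T]
    (σ : Representation k L T) (g : L) {u : T} (h : σ g u = 0) : u = 0 := by
  have := congrArg (σ g⁻¹) h
  rwa [map_zero, ← Module.End.mul_apply, ← map_mul, inv_mul_cancel, map_one] at this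

end Cen

open Cen in
theorem cen : SWt → SChi → SCen := by
  classical
  intro hW hC p _ L _ E A D hE hF hN hA hc ht
  rw [← and_assoc]
  refine ⟨by_contra fun h => ?_, fun x hx y hy hz => by_contra fun hne => ?_⟩
  · obtain ⟨q⟩ := emb (Q := L ⧸ Subgroup.centralizer (A : Set L)) h
    obtain ⟨r, hr⟩ : ∃ r : Fin (D + 1) → L, ∀ i, (r i : L ⧸ Subgroup.centralizer (A : Set L)) = q i :=
      ⟨fun i => (q i).out, fun i => (q i).out_eq'⟩
    have ex : ∀ ij : {ij : Fin (D + 1) × Fin (D + 1) // ij.1 ≠ ij.2}, ∃ a ∈ A,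
        r ij.1.1 * a * (r ij.1.1)⁻¹ * (r ij.1.2 * a * (r ij.1.2)⁻¹)⁻¹ ≠ 1 := by
      rintro ⟨⟨i, j⟩, hij⟩
      by_contra hn
      push Not at hn
      refine hij (q.injective ?_)
      rw [← hr, ← hr, QuotientGroup.eq, Subgroup.mem_centralizer_iff]
      intro a ha
      have := mul_inv_eq_one.1 (hn a ha)
      calc a * ((r i)⁻¹ * r j) = (r i)⁻¹ * (r i * a * (r i)⁻¹) * r j := by group
        _ = _ := by rw [this]; group
    choose a a1 a2 using ex
    obtain ⟨χ, c1, c2⟩ := hC p L A hA hc ht (Finset.univ.image fun ij =>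
      r ij.1.1 * a ij * (r ij.1.1)⁻¹ * (r ij.1.2 * a ij * (r ij.1.2)⁻¹)⁻¹) fun c h => by
        obtain ⟨ij, -, rfl⟩ := Finset.mem_image.1 h
        exact ⟨mul_mem (hN.conj_mem _ (a1 ij) _) (inv_mem (hN.conj_mem _ (a1 ij) _)), a2 ij⟩
    obtain ⟨T, _, _, σ, u, f1, f2, f3, f4⟩ := hW (Kp p) L E A D hE hF hN hc ht χ c1
    have := (indep (fun b : A => σ b) (fun i => σ (r i)⁻¹ u) (fun i b => χ (r i * b * (r i)⁻¹))
      (fun i e => f3 (ne0 σ _ e)) (fun i b => by
        rw [← map_smul, ← f4 _ (hN.conj_mem _ b.2 _), ← Module.End.mul_apply,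
          ← Module.End.mul_apply, ← map_mul, ← map_mul]
        congr 2
        group) fun i j hij => ⟨⟨_, a1 ⟨(i, j), hij⟩⟩, fun e => by
          have m := fun l => hN.conj_mem _ (a1 ⟨(i, j), hij⟩) (r l)
          have := c1.2 _ (mul_mem (m i) (inv_mem (m j))) _ (m j)
          rw [inv_mul_cancel_right, e] at this
          exact c2 _ (Finset.mem_image_of_mem _ (Finset.mem_univ ⟨(i, j), hij⟩))
            (right_eq_mul₀ (c1.ne_zero (m j)) |>.1 this)⟩).fintype_card_le_finrank
    rw [Fintype.card_fin] at this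
    omega
  · obtain ⟨z, hz'⟩ : ∃ z, z = x * y * x⁻¹ * y⁻¹ := ⟨_, rfl⟩
    rw [← hz'] at hz
    have z1 : z ≠ 1 := fun e => hne (by rwa [hz', mul_inv_eq_one, mul_inv_eq_iff_eq_mul] at e)
    obtain ⟨χ, c1, c2⟩ := hC p L A hA hc ht ((Finset.Icc 1 D).image fun j => z ^ j) fun c h => by
      obtain ⟨j, hj, rfl⟩ := Finset.mem_image.1 h
      exact ⟨pow_mem hz j, fun e => z1 (ht z hz
        (isOfFinOrder_iff_pow_eq_one.2 ⟨j, (Finset.mem_Icc.1 hj).1, e⟩))⟩
    obtain ⟨T, _, _, σ, u, f1, f2, f3, f4⟩ := hW (Kp p) L E A D hE hF hN hc ht χ c1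
    obtain ⟨V, hV⟩ : ∃ V : Submodule (Kp p) T, ∀ v, v ∈ V ↔ σ z v = χ z • v :=
      ⟨Module.End.eigenspace (σ z) (χ z), fun v => Module.End.mem_eigenspace_iff⟩
    have iv : ∀ g ∈ Subgroup.centralizer (A : Set L), ∀ v ∈ V, σ g v ∈ V := fun g hg v hv => by
      rw [hV, ← map_smul, ← (hV v).1 hv, ← Module.End.mul_apply, ← Module.End.mul_apply,
        ← map_mul, ← map_mul, Subgroup.mem_centralizer_iff.1 hg z hz]
    have dn : ∀ g hg, LinearMap.det ((σ g).restrict (iv g hg)) ≠ 0 := fun g hg e =>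
      LinearMap.det_eq_zero_iff_ker_ne_bot.1 e (LinearMap.ker_eq_bot'.2 fun v hv =>
        Subtype.ext (ne0 σ g (congrArg Subtype.val hv)))
    have e : (σ x).restrict (iv x hx) * (σ y).restrict (iv y hy) =
        χ z • ((σ y).restrict (iv y hy) * (σ x).restrict (iv x hx)) :=
      LinearMap.ext fun v => Subtype.ext (by
        change σ x (σ y v) = χ z • σ y (σ x v)
        rw [← (hV _).1 (iv y hy _ (iv x hx _ v.2))]
        simp only [← Module.End.mul_apply, ← map_mul]
        congr 2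
        rw [hz']
        group)
    have d := congrArg LinearMap.det e
    rw [LinearMap.det_smul, map_mul, map_mul, mul_comm] at d
    have d1 := (right_eq_mul₀ (mul_ne_zero (dn y hy) (dn x hx))).1 d
    have n0 : 0 < Module.finrank (Kp p) V :=
      Module.finrank_pos_iff_exists_ne_zero.2 ⟨⟨u, (hV u).2 (f4 z hz)⟩,
        fun e => f3 (congrArg Subtype.val e)⟩
    refine c2 _ (Finset.mem_image_of_mem _ (Finset.mem_Icc.2
      ⟨n0, (Submodule.finrank_le V).trans f2⟩)) ?_
    rw [← d1]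
    exact (c1.hom_apply ⟨_, pow_mem hz _⟩).symm.trans
      (congrArg Units.val (map_pow c1.hom ⟨z, hz⟩ _))

end Pool.Agent.MP_6a4325_al.H41
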