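import Pool.Agent.MP_6a4325_al.H84.Spec3

/-! A connected normal subgroup of finite index. -/

set_option autoImplicit false

namespace Pool.Agent.MP_6a4325_al.H41

open Pool.Agent.MP_6a4325_al.H62 Pool.Agent.MP_6a4325_al.H84

namespace Conn

variable {K G ι : Type} [Field K] [Group G] [Fintype ι] [DecidableEq ι]

/-- Composition on the right. -/
def pre (K : Type) [Field K] {H G : Type} (φ : H → G) : (G → K) →ₐ[K] (H → K) where
  toFun f := fun x => f (φ x)
  map_one' := rfl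
  map_mul' _ _ := rfl
  map_zero' := rfl
  map_add' _ _ := rfl
  commutes' _ := rfl

variable (ρ : G →* Matrix ι ι K)

theorem pre_mem (a b : G) {f : G → K} (hf : f ∈ cf ρ) : pre K (fun x => a * x * b) f ∈ cf ρ := by
  refine (Algebra.adjoin_le (S := (cf ρ).comap (pre K fun x => a * x * b)) ?_) hf
  rintro _ ⟨⟨i, j⟩, rfl⟩
  have : pre K (fun x => a * x * b) (fun g => ρ g i j) =
      ∑ l, ∑ m, (ρ a i m * ρ b l j) • fun g => ρ g m l := funext fun x => by
    change ρ (a * x * b) i j = _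
    simp only [map_mul, Matrix.mul_apply, Finset.sum_apply, Pi.smul_apply, smul_eq_mul,
      Finset.sum_mul]
    exact Finset.sum_congr rfl fun l _ => Finset.sum_congr rfl fun m _ => by ring
  change pre K _ _ ∈ cf ρ
  rw [this]
  exact Subalgebra.sum_mem _ fun l _ => Subalgebra.sum_mem _ fun m _ =>
    Subalgebra.smul_mem _ (Algebra.subset_adjoin (Set.mem_range.2 ⟨(m, l), rfl⟩)) _

/-- Translations. -/
def tr (a b : G) : cf ρ →+* cf ρ :=
  (pre K fun x => a * x * b).toRingHom.restrict _ _ fun _ hf => pre_mem ρ a b hf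

theorem tr_apply (a b : G) (f : cf ρ) (x : G) : (tr ρ a b f).1 x = f.1 (a * x * b) := rfl

theorem tr_inv (a b : G) (f : cf ρ) : tr ρ a b (tr ρ a⁻¹ b⁻¹ f) = f :=
  Subtype.ext (funext fun x => by rw [tr_apply, tr_apply]; group)

theorem tr_surj (a b : G) : Function.Surjective (tr ρ a b) := fun f => ⟨_, tr_inv ρ a b f⟩

theorem tr_min (a b : G) {P : Ideal (cf ρ)} (h : P ∈ minimalPrimes (cf ρ)) :
    P.comap (tr ρ a b) ∈ minimalPrimes (cf ρ) := by
  have i : Function.Injective (tr ρ a b) :=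
    Function.LeftInverse.injective (g := tr ρ a⁻¹ b⁻¹) fun f => by
      simpa using tr_inv ρ a⁻¹ b⁻¹ f
  have := Ideal.comap_minimalPrimes_eq_of_surjective (tr_surj ρ a b) ⊥
  rw [Ideal.comap_bot_of_injective _ i] at this
  exact (Set.ext_iff.1 this _).2 ⟨P, h, rfl⟩

theorem ex_min (g : G) : ∃ P ∈ minimalPrimes (cf ρ), ∀ f ∈ P, f.1 g = 0 := by
  have := RingHom.ker_isPrime ((Pi.evalRingHom (fun _ : G => K) g).comp (cf ρ).val.toRingHom)
  exact Ideal.exists_minimalPrimes_le (I := ⊥)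
    (J := RingHom.ker ((Pi.evalRingHom (fun _ : G => K) g).comp (cf ρ).val.toRingHom)) bot_le

theorem ex_u {P : Ideal (cf ρ)} (h : P ∈ minimalPrimes (cf ρ)) :
    ∃ u ∉ P, ∀ Q ∈ minimalPrimes (cf ρ), Q ≠ P → u ∈ Q := by
  classical
  have : Algebra.FiniteType K (cf ρ) := (Subalgebra.fg_iff_finiteType _).1
    (Subalgebra.fg_def.2 ⟨_, Set.finite_range _, rfl⟩)
  have : IsNoetherianRing (cf ρ) := Algebra.FiniteType.isNoetherianRing K _
  have hf := minimalPrimes.finite_of_isNoetherianRing (cf ρ)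
  have : ¬ (hf.toFinset.erase P).inf id ≤ P := fun hl => by
    obtain ⟨Q, h1, h2⟩ := h.1.1.inf_le'.1 hl
    obtain ⟨h3, h4⟩ := Finset.mem_erase.1 h1
    exact h3 (le_antisymm h2 (h.2 (hf.mem_toFinset.1 h4).1 h2))
  obtain ⟨u, h1, h2⟩ := SetLike.not_le_iff_exists.1 this
  exact ⟨u, h2, fun Q hQ hne =>
    Finset.inf_le (f := id) (Finset.mem_erase.2 ⟨hne, hf.mem_toFinset.2 hQ⟩) h1⟩

theorem uniq (g : G) {Q Q' : Ideal (cf ρ)} (h : Q ∈ minimalPrimes (cf ρ))
    (h' : Q' ∈ minimalPrimes (cf ρ)) (e : ∀ f ∈ Q, f.1 g = 0) (e' : ∀ f ∈ Q', f.1 g = 0) :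
    Q = Q' := by
  obtain ⟨u, h1, h2⟩ := ex_u ρ h
  obtain ⟨x, hx⟩ : ∃ x, u.1 x ≠ 0 := by
    by_contra hc
    push Not at hc
    exact h1 ((Subtype.ext (funext hc) : u = 0) ▸ Q.zero_mem)
  have k : ∀ R ∈ minimalPrimes (cf ρ), (∀ f ∈ R, f.1 g = 0) → R.comap (tr ρ (x * g⁻¹) 1) = Q :=
    fun R hR e => by
      by_contra hc
      have := e (tr ρ (x * g⁻¹) 1 u) (h2 _ (tr_min ρ (x * g⁻¹) 1 hR) hc)
      rw [tr_apply, inv_mul_cancel_right, mul_one] at this
      exact hx this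
  exact Ideal.comap_injective_of_surjective _ (tr_surj ρ _ _) ((k Q h e).trans (k Q' h' e').symm)

end Conn

open Conn in
theorem conn : SConn := by
  intro K G ι _ _ _ _ ρ
  obtain ⟨P, hP, h1⟩ := ex_min ρ 1
  have v : ∀ a b, ∀ f ∈ P.comap (tr ρ a b), f.1 (a * b) = 0 := fun a b f hf => by
    simpa [tr_apply] using h1 _ hf
  have st : ∀ a b, (∀ f ∈ P, f.1 (a * b) = 0) → P.comap (tr ρ a b) = P :=
    fun a b h => uniq ρ _ (tr_min ρ a b hP) hP (v a b) h
  have dv : ∀ g h, P.comap (tr ρ g 1) = P.comap (tr ρ h 1) → ∀ f ∈ P, f.1 (g⁻¹ * h) = 0 :=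
    fun g h e f hf => by
      have : tr ρ g⁻¹ 1⁻¹ f ∈ P.comap (tr ρ g 1) := by rwa [Ideal.mem_comap, tr_inv]
      have := v h 1 _ (e ▸ this)
      rwa [tr_apply, inv_one, mul_one, mul_one] at this
  let N : Subgroup G :=
    { carrier := {g | ∀ f ∈ P, f.1 g = 0}
      one_mem' := h1
      mul_mem' := fun {g h} hg hh f hf => by
        have : f ∈ P.comap (tr ρ g 1) := (st g 1 (by rwa [mul_one])).symm ▸ hf
        simpa [tr_apply] using hh _ this
      inv_mem' := fun {g} hg f hf => by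
        simpa using dv g 1 ((st g 1 (by rwa [mul_one])).trans
          (st 1 1 (by rwa [mul_one])).symm) f hf }
  obtain ⟨u, u1, u2⟩ := ex_u ρ hP
  have key : ∀ f : cf ρ, (∀ g ∈ N, f.1 g = 0) → f ∈ P := fun f hf => by
    have : f * u = 0 := Subtype.ext (funext fun g => by
      change f.1 g * u.1 g = 0
      by_cases hg : g ∈ N
      · rw [hf g hg, zero_mul]
      · obtain ⟨Q, q1, q2⟩ := ex_min ρ g
        rw [q2 u (u2 Q q1 fun e => hg fun f hf => q2 f (e ▸ hf)), mul_zero])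
    exact (hP.1.1.mem_or_mem (this ▸ P.zero_mem)).resolve_right u1
  refine ⟨N, ⟨fun g hg a f hf => ?_⟩, ?_, ?_⟩
  · have : f ∈ P.comap (tr ρ a a⁻¹) := (st a a⁻¹ (by rwa [mul_inv_cancel])).symm ▸ hf
    exact hg _ this
  · have : Algebra.FiniteType K (cf ρ) := (Subalgebra.fg_iff_finiteType _).1
      (Subalgebra.fg_def.2 ⟨_, Set.finite_range _, rfl⟩)
    have : IsNoetherianRing (cf ρ) := Algebra.FiniteType.isNoetherianRing K _
    have := (minimalPrimes.finite_of_isNoetherianRing (cf ρ)).to_subtype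
    have : Finite (G ⧸ N) := Finite.of_injective (β := minimalPrimes (cf ρ))
      (fun q => ⟨_, tr_min ρ q.out 1 hP⟩) fun q q' e => by
        rw [← q.out_eq', ← q'.out_eq']
        exact QuotientGroup.eq.2 (dv _ _ (Subtype.mk.inj e))
    exact Subgroup.finiteIndex_of_finite_quotient
  · have e : cf (ρ.comp N.subtype) = (cf ρ).map (pre K N.subtype) := by
      rw [cf, cf, AlgHom.map_adjoin, ← Set.range_comp]
      rfl
    rw [e]
    have : NoZeroDivisors ((cf ρ).map (pre K N.subtype)) := ⟨by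
      rintro ⟨_, f, hf, rfl⟩ ⟨_, g, hg, rfl⟩ h
      have := key (⟨f, hf⟩ * ⟨g, hg⟩) fun x hx => congrFun (congrArg Subtype.val h) ⟨x, hx⟩
      exact (hP.1.1.mem_or_mem this).imp (fun a => Subtype.ext (funext fun x => x.2 _ a))
        fun a => Subtype.ext (funext fun x => x.2 _ a)⟩
    exact NoZeroDivisors.to_isDomain _

end Pool.Agent.MP_6a4325_al.H41
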