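import Pool.Agent.MP_6a4325_al.H62.Base

/-!
Row SPEC: specialisation of finite dimensional solutions to the algebraic numbers, and the
finiteness of the first Betti numbers of subgroups.
-/

set_option autoImplicit false

namespace Pool.Agent.MP_6a4325_al.H41

open Matrix Pool.Agent.MP_6a4325_al.H62

theorem exists_algHom_Qb (R : Type) [CommRing R] [Algebra ℚ R] [Nontrivial R]
    [Algebra.FiniteType ℚ R] : Nonempty (R →ₐ[ℚ] Qb) := by
  obtain ⟨m, hm⟩ := Ideal.exists_maximal R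
  let := Ideal.Quotient.field m
  have := finite_of_finite_type_of_isJacobsonRing ℚ (R ⧸ m)
  exact ⟨(IsAlgClosed.lift : (R ⧸ m) →ₐ[ℚ] Qb).comp (Ideal.Quotient.mkₐ ℚ m)⟩

theorem entries_mem {G K : Type} [Group G] [CommRing K] {n : ℕ}
    (ρ : G →* Matrix (Fin n) (Fin n) K) (S : Set G) (hS : Submonoid.closure S = ⊤)
    (A : Subring K) (hA : ∀ s ∈ S, ∀ i j, ρ s i j ∈ A) (g : G) : ∀ i j, ρ g i j ∈ A := by
  have hg : g ∈ Submonoid.closure S := hS ▸ Submonoid.mem_top g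
  induction hg using Submonoid.closure_induction with
  | mem x hx => exact hA x hx
  | one =>
    intro i j
    rw [map_one, Matrix.one_apply]
    split_ifs
    · exact A.one_mem
    · exact A.zero_mem
  | mul x y _ _ hx hy =>
    intro i j
    rw [map_mul, Matrix.mul_apply]
    exact A.sum_mem fun k _ => A.mul_mem (hx i k) (hy k j)

theorem lift_map {G R K : Type} [Group G] [CommRing R] [CommRing K] [Algebra ℚ R] [Algebra ℚ K]
    {n : ℕ} (f : R →ₐ[ℚ] K) (ρ₀ : G →* Matrix (Fin n) (Fin n) R)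
    (ρ : G →* Matrix (Fin n) (Fin n) K) (h : ∀ g, (ρ₀ g).map f = ρ g) (x : MonoidAlgebra ℚ G) :
    (MonoidAlgebra.lift ℚ (Matrix (Fin n) (Fin n) R) G ρ₀ x).map f =
      MonoidAlgebra.lift ℚ (Matrix (Fin n) (Fin n) K) G ρ x := by
  change f.mapMatrix (MonoidAlgebra.lift ℚ (Matrix (Fin n) (Fin n) R) G ρ₀ x) = _
  induction x using MonoidAlgebra.induction_linear with
  | zero => rw [map_zero, map_zero, map_zero]
  | add x y hx hy => rw [map_add, map_add, map_add, hx, hy]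
  | single g c =>
    rw [MonoidAlgebra.lift_single, MonoidAlgebra.lift_single, map_smul, ← h g]
    rfl

theorem sum_map {G R K : Type} [Group G] [CommRing R] [CommRing K] [Algebra ℚ R] [Algebra ℚ K]
    {n m : ℕ} (f : R →ₐ[ℚ] K) (ρ₀ : G →* Matrix (Fin n) (Fin n) R)
    (ρ : G →* Matrix (Fin n) (Fin n) K) (h : ∀ g, (ρ₀ g).map f = ρ g)
    (v₀ : Fin m → Fin n → R) (x : Fin m → MonoidAlgebra ℚ G) (j : Fin n) :
    (∑ i, MonoidAlgebra.lift ℚ (Matrix (Fin n) (Fin n) K) G ρ (x i) *ᵥ (fun j => f (v₀ i j))) j =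
      f ((∑ i, MonoidAlgebra.lift ℚ (Matrix (Fin n) (Fin n) R) G ρ₀ (x i) *ᵥ v₀ i) j) := by
  rw [Finset.sum_apply, Finset.sum_apply, map_sum]
  refine Finset.sum_congr rfl fun i _ => ?_
  rw [← lift_map f ρ₀ ρ h]
  exact (RingHom.map_mulVec (f : R →+* K) _ (v₀ i) j).symm

theorem specM : SSpecM := by
  intro G _ hG K _ _ n m ρ v hv
  obtain ⟨S, hS, hSf⟩ := Monoid.fg_iff.mp (Group.fg_iff_monoid_fg.mp hG)
  obtain ⟨i₀, hi₀⟩ := Function.ne_iff.mp hv
  obtain ⟨j₀, hj₀⟩ := Function.ne_iff.mp hi₀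
  have hj₀' : v i₀ j₀ ≠ 0 := hj₀
  let E : Set K := ((fun p : G × Fin n × Fin n => ρ p.1 p.2.1 p.2.2) '' (S ×ˢ Set.univ)) ∪
    (Set.range (fun p : Fin m × Fin n => v p.1 p.2) ∪ {(v i₀ j₀)⁻¹})
  have hE : E.Finite :=
    ((hSf.prod Set.finite_univ).image _).union ((Set.finite_range _).union (Set.finite_singleton _))
  let R₀ : Subalgebra ℚ K := Algebra.adjoin ℚ E
  have hft : Algebra.FiniteType ℚ R₀ :=
    (Subalgebra.fg_iff_finiteType R₀).mp (Subalgebra.fg_def.mpr ⟨E, hE, rfl⟩)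
  obtain ⟨φ⟩ := exists_algHom_Qb R₀
  have hρ : ∀ g i j, ρ g i j ∈ R₀ := fun g =>
    entries_mem ρ S hS R₀.toSubring (fun s hs i j =>
      Algebra.subset_adjoin (Or.inl ⟨(s, i, j), ⟨hs, trivial⟩, rfl⟩)) g
  have hvm : ∀ i j, v i j ∈ R₀ := fun i j =>
    Algebra.subset_adjoin (Or.inr (Or.inl ⟨(i, j), rfl⟩))
  have hinv : (v i₀ j₀)⁻¹ ∈ R₀ := Algebra.subset_adjoin (Or.inr (Or.inr rfl))
  let r₀ : G → Matrix (Fin n) (Fin n) R₀ := fun g => Matrix.of fun i j => ⟨ρ g i j, hρ g i j⟩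
  have hr₀ : ∀ g, R₀.val.mapMatrix (r₀ g) = ρ g := fun g => rfl
  have hinj : Function.Injective
      (R₀.val.mapMatrix : Matrix (Fin n) (Fin n) R₀ →ₐ[ℚ] Matrix (Fin n) (Fin n) K) :=
    Matrix.map_injective Subtype.val_injective
  let ρ₀ : G →* Matrix (Fin n) (Fin n) R₀ :=
    { toFun := r₀
      map_one' := hinj (by rw [hr₀, map_one, map_one])
      map_mul' := fun a b => hinj (by rw [hr₀, map_mul, map_mul, hr₀, hr₀]) }
  let v₀ : Fin m → Fin n → R₀ := fun i j => ⟨v i j, hvm i j⟩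
  let ρ' : G →* Matrix (Fin n) (Fin n) Qb :=
    (φ.mapMatrix : Matrix (Fin n) (Fin n) R₀ →ₐ[ℚ] Matrix (Fin n) (Fin n) Qb).toMonoidHom.comp ρ₀
  refine ⟨ρ', fun i j => φ (v₀ i j), ?_, fun x hx => ?_⟩
  · intro h0
    have h1 : φ (v₀ i₀ j₀) = 0 := congrFun (congrFun h0 i₀) j₀
    have h2 : v₀ i₀ j₀ * ⟨_, hinv⟩ = 1 := Subtype.ext (mul_inv_cancel₀ hj₀')
    have h3 := congrArg φ h2
    rw [map_mul, h1, zero_mul, map_one] at h3
    exact zero_ne_one h3
  · funext j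
    have h1 := sum_map R₀.val ρ₀ ρ (fun g => rfl) v₀ x j
    have h2 := sum_map φ ρ₀ ρ' (fun g => rfl) v₀ x j
    have h3 : (∑ i, MonoidAlgebra.lift ℚ (Matrix (Fin n) (Fin n) R₀) G ρ₀ (x i) *ᵥ v₀ i) j = 0 := by
      apply Subtype.val_injective
      exact h1.symm.trans (congrFun hx j)
    rw [h3, map_zero] at h2
    exact h2

theorem spec : SSpec := by
  rintro G _ hG X ⟨K, _, _, _, n, ρ, v, hv, h⟩
  obtain ⟨ρ', v', hv', h'⟩ := specM G hG K n 1 ρ (fun _ => v)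
    (fun h0 => hv (congrFun h0 0))
  refine ⟨n, ρ', v' 0, fun h0 => hv' (funext fun i => by rw [Subsingleton.elim i 0]; exact h0),
    fun x hx => ?_⟩
  have := h' (fun _ => x) (by rw [Fin.sum_univ_one]; exact h x hx)
  rwa [Fin.sum_univ_one] at this

/-- the numbers that become integral after multiplication by a power of `N` -/
def locInt (N : ℤ) : Subring Qb where
  carrier := {x | ∃ k : ℕ, IsIntegral ℤ (N ^ k • x)}
  mul_mem' := by
    rintro a b ⟨k, hk⟩ ⟨l, hl⟩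
    refine ⟨k + l, ?_⟩
    rw [pow_add, ← smul_mul_smul_comm]
    exact hk.mul hl
  one_mem' := ⟨0, by rw [pow_zero, one_smul]; exact isIntegral_one⟩
  add_mem' := by
    rintro a b ⟨k, hk⟩ ⟨l, hl⟩
    refine ⟨k + l, ?_⟩
    rw [smul_add]
    refine IsIntegral.add ?_ ?_
    · rw [pow_add, mul_comm, mul_smul]
      exact hk.smul _
    · rw [pow_add, mul_smul]
      exact hl.smul _
  zero_mem' := ⟨0, by rw [smul_zero]; exact isIntegral_zero⟩
  neg_mem' := by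
    rintro a ⟨k, hk⟩
    exact ⟨k, by rw [smul_neg]; exact hk.neg⟩

theorem eig_integral {n : ℕ} (M : Matrix (Fin n) (Fin n) Qb) (hM : ∀ i j, IsIntegral ℤ (M i j))
    (v : Fin n → Qb) (hv : v ≠ 0) (c : Qb) (h : M *ᵥ v = c • v) : IsIntegral ℤ c := by
  let O := integralClosure ℤ Qb
  let M' : Matrix (Fin n) (Fin n) O := Matrix.of fun i j => ⟨M i j, hM i j⟩
  have hM' : M'.map (algebraMap O Qb) = M := rfl
  have h1 : IsIntegral O c := by
    refine ⟨M'.charpoly, M'.charpoly_monic, ?_⟩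
    rw [Polynomial.eval₂_eq_eval_map, ← Matrix.charpoly_map, hM', Matrix.eval_charpoly,
      ← Matrix.exists_mulVec_eq_zero_iff]
    refine ⟨v, hv, ?_⟩
    rw [Matrix.sub_mulVec, h, Matrix.scalar_apply, ← Matrix.smul_one_eq_diagonal,
      Matrix.smul_mulVec, Matrix.one_mulVec, sub_self]
  exact isIntegral_trans c h1

theorem eig_locInt {n : ℕ} (N : ℤ) (M : Matrix (Fin n) (Fin n) Qb) (hM : ∀ i j, M i j ∈ locInt N)
    (v : Fin n → Qb) (hv : v ≠ 0) (c : Qb) (h : M *ᵥ v = c • v) : c ∈ locInt N := by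
  choose k hk using hM
  let k₀ : ℕ := ∑ p : Fin n × Fin n, k p.1 p.2
  have hle : ∀ i j, k i j ≤ k₀ := fun i j =>
    Finset.single_le_sum (f := fun p : Fin n × Fin n => k p.1 p.2) (fun _ _ => Nat.zero_le _)
      (Finset.mem_univ (i, j))
  refine ⟨k₀, eig_integral (N ^ k₀ • M) (fun i j => ?_) v hv _ ?_⟩
  · obtain ⟨d, hd⟩ := Nat.exists_eq_add_of_le (hle i j)
    rw [Matrix.smul_apply, hd, pow_add, mul_comm, mul_smul]
    exact (hk i j).smul _
  · rw [Matrix.smul_mulVec, h, smul_assoc]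

theorem prime_inv_notMem (N : ℤ) (hN : N ≠ 0) (p : ℕ) (hp : p.Prime) (hlt : N.natAbs < p) :
    ((p : Qb))⁻¹ ∉ locInt N := by
  rintro ⟨k, hk⟩
  have h1 : N ^ k • ((p : Qb))⁻¹ = algebraMap ℚ Qb ((N : ℚ) ^ k / p) := by
    rw [map_div₀, map_pow, map_intCast, map_natCast, zsmul_eq_mul, Int.cast_pow, div_eq_mul_inv]
  rw [h1, isIntegral_algebraMap_iff (algebraMap ℚ Qb).injective] at hk
  obtain ⟨z, hz⟩ := IsIntegrallyClosed.isIntegral_iff.mp hk
  have hp0 : (p : ℚ) ≠ 0 := Nat.cast_ne_zero.mpr hp.ne_zero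
  have h2 : (z : ℚ) * p = (N : ℚ) ^ k := by
    have : (z : ℚ) = (N : ℚ) ^ k / p := hz
    rw [this, div_mul_cancel₀ _ hp0]
  have h3 : z * p = N ^ k := by exact_mod_cast h2
  have h4 : (p : ℤ) ∣ N := (Nat.prime_iff_prime_int.mp hp).dvd_of_dvd_pow ⟨z, by rw [← h3, mul_comm]⟩
  have h5 : p ∣ N.natAbs := Int.natCast_dvd.mp h4
  exact absurd (Nat.le_of_dvd (Int.natAbs_pos.mpr hN) h5) (not_le.mpr hlt)

theorem exists_seq {A : Type} [AddGroup A] (h : ¬ Module.Finite ℝ (A →+ ℝ)) :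
    ∃ a : ℕ → A, ∀ (t : ℕ → ℝ) (k : ℕ), ∃ ψ : A →+ ℝ, ∀ i < k, ψ (a i) = t i := by
  obtain ⟨f, hP, hr⟩ := exists_seq_of_forall_finset_exists (α := A × (A →+ ℝ))
    (fun p => p.2 p.1 = 1) (fun p q => q.2 p.1 = 0) (fun s _ => by
      let ev : (A →+ ℝ) →ₗ[ℝ] (s → ℝ) :=
        { toFun := fun χ p => χ p.1.1
          map_add' := fun _ _ => rfl
          map_smul' := fun _ _ => rfl }
      have hni : ¬ Function.Injective ev := fun hi => h (Module.Finite.of_injective ev hi)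
      rw [injective_iff_map_eq_zero] at hni
      push Not at hni
      obtain ⟨χ, hχ, hne⟩ := hni
      obtain ⟨b, hb⟩ := DFunLike.ne_iff.mp hne
      have hb' : χ b ≠ 0 := hb
      refine ⟨(b, (χ b)⁻¹ • χ), ?_, fun x hx => ?_⟩
      · change (χ b)⁻¹ * χ b = 1
        exact inv_mul_cancel₀ hb'
      · have : χ x.1 = 0 := congrFun hχ ⟨x, hx⟩
        change (χ b)⁻¹ * χ x.1 = 0
        rw [this, mul_zero])
  refine ⟨fun i => (f i).1, fun t k => ?_⟩
  induction k with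
  | zero => exact ⟨0, fun i hi => absurd hi (Nat.not_lt_zero i)⟩
  | succ k ih =>
    obtain ⟨ψ, hψ⟩ := ih
    refine ⟨ψ + (t k - ψ (f k).1) • (f k).2, fun i hi => ?_⟩
    change ψ (f i).1 + (t k - ψ (f k).1) * (f k).2 (f i).1 = t i
    rcases Nat.lt_succ_iff_lt_or_eq.mp hi with hi | rfl
    · rw [hψ i hi, hr i k hi, mul_zero, add_zero]
    · rw [hP i, mul_one, add_sub_cancel]

theorem f1 : SF1 := by
  classical
  intro G _ hG hW B
  by_contra hfin
  obtain ⟨a, ha⟩ := exists_seq hfin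
  choose p hle hp using fun i : ℕ => Nat.exists_infinite_primes (i + 1)
  let b : ℕ → G := fun i => ((a i).toMul : B)
  let x : ℕ → MonoidAlgebra ℚ G := fun i =>
    MonoidAlgebra.single (b i) 1 - MonoidAlgebra.single 1 (p i : ℚ)
  have hsol : Sol G (Set.range x) := by
    refine hW _ fun T hT => ?_
    choose ι hι using fun y : T => hT y.2
    obtain ⟨ψ, hψ⟩ := ha (fun i => Real.log (p i)) (∑ y : T, ι y + 1)
    let φ : G → ℝ := fun g => if h : g ∈ B then Real.exp (ψ (Additive.ofMul ⟨g, h⟩)) else 0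
    refine span_ne_top_of_fun φ ?_ _ fun y hy g => ?_
    · simp only [φ, dif_pos B.one_mem]
      exact (Real.exp_pos _).ne'
    · have hlt : ι ⟨y, hy⟩ < ∑ y : T, ι y + 1 :=
        Nat.lt_succ_of_le (Finset.single_le_sum (f := ι) (fun _ _ => Nat.zero_le _)
          (Finset.mem_univ _))
      have hy' : x (ι ⟨y, hy⟩) = y := hι ⟨y, hy⟩
      have h1 := hψ _ hlt
      generalize ι ⟨y, hy⟩ = i at hy' h1
      rw [← lam_apply (fun h => φ (g * h)) y, ← hy']
      simp only [x]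
      rw [map_sub, lam_single, lam_single, one_smul, mul_one]
      have hb : b i ∈ B := ((a i).toMul : B).2
      by_cases hg : g ∈ B
      · have hgb : g * b i ∈ B := B.mul_mem hg hb
        simp only [φ, dif_pos hg, dif_pos hgb]
        have h2 : Additive.ofMul (⟨g * b i, hgb⟩ : B) = Additive.ofMul ⟨g, hg⟩ + a i := rfl
        have hp0 : (0 : ℝ) < p i := Nat.cast_pos.mpr (hp i).pos
        rw [h2, map_add, h1, Real.exp_add, Real.exp_log hp0, Rat.smul_def, Rat.cast_natCast,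
          mul_comm, sub_self]
      · have hgb : g * b i ∉ B := fun h => hg (by simpa using B.mul_mem h (B.inv_mem hb))
        simp only [φ, dif_neg hg, dif_neg hgb]
        rw [smul_zero, sub_self]
  obtain ⟨n, ρ, v, hv, h⟩ := spec G hG _ hsol
  obtain ⟨S, hS, hSf⟩ := Monoid.fg_iff.mp (Group.fg_iff_monoid_fg.mp hG)
  have hE : ((fun q : G × Fin n × Fin n => ρ q.1 q.2.1 q.2.2) '' (S ×ˢ Set.univ)).Finite :=
    (hSf.prod Set.finite_univ).image _
  have halg : Algebra.IsAlgebraic ℤ Qb :=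
    have := IsLocalization.isAlgebraic ℚ (nonZeroDivisors ℤ)
    have : Algebra.IsAlgebraic ℚ Qb := AlgebraicClosure.isAlgebraic ℚ
    Algebra.IsAlgebraic.trans ℤ ℚ Qb
  obtain ⟨N, hN, hint⟩ := Algebra.IsAlgebraic.exists_integral_multiples ℤ hE.toFinset
  have hρ : ∀ g i j, ρ g i j ∈ locInt N := fun g =>
    entries_mem ρ S hS (locInt N) (fun s hs i j => ⟨1, by
      rw [pow_one]
      exact hint _ (hE.mem_toFinset.mpr ⟨(s, i, j), ⟨hs, trivial⟩, rfl⟩)⟩) g
  let i := N.natAbs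
  have h1 := h (x i) ⟨i, rfl⟩
  simp only [x] at h1
  rw [map_sub, act_single, act_single, one_smul, map_one, Matrix.sub_mulVec, sub_eq_zero,
    Matrix.smul_mulVec, Matrix.one_mulVec] at h1
  have hp0 : (p i : Qb) ≠ 0 := Nat.cast_ne_zero.mpr (hp i).ne_zero
  have h2 : ρ (b i) *ᵥ v = (p i : Qb) • v := by
    rw [h1, Nat.cast_smul_eq_nsmul, Nat.cast_smul_eq_nsmul]
  have h3 : ρ (b i)⁻¹ *ᵥ v = (p i : Qb)⁻¹ • v := by
    have h4 : ρ (b i)⁻¹ *ᵥ (ρ (b i) *ᵥ v) = v := by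
      rw [Matrix.mulVec_mulVec, ← map_mul, inv_mul_cancel, map_one, Matrix.one_mulVec]
    rw [h2, Matrix.mulVec_smul] at h4
    rw [eq_inv_smul_iff₀ hp0, h4]
  exact prime_inv_notMem N hN (p i) (hp i) (hle i) (eig_locInt N _ (hρ _) v hv _ h3)

end Pool.Agent.MP_6a4325_al.H41
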